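import Mathlib
import Pool.Agent.TH647.PRig.Fuchs

set_option autoImplicit false

namespace Pool.Agent.Results.MP_305fdd_al.FreeFactors

open Pool.Agent.TH647.PRig

/-- Profinite rigidity passes to a free factor `Γ` of `Γ * Δ` if every homomorphism from `Δ` to `Γ`
is trivial, or if every homomorphism from `Δ` to a free product is conjugate into a factor.
`Rigid G` says that every finitely generated residually finite group with the same finite quotients
as `G` is isomorphic to `G`. -/
theorem result (Γ Δ : Type) [Group Γ] [Group Δ] (hΓ : Group.FG Γ) (hΔ : Group.FG Δ)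
    (rΔ : Group.ResiduallyFinite Δ) (h : (∀ f : Δ →* Γ, f = 1) ∨ Elliptic Δ)
    (hr : Rigid (Monoid.Coprod Γ Δ)) : Rigid Γ := by
  rcases h with h | h
  · exact rigid_of_coprod hΓ hΔ rΔ h hr
  · exact rigid_of_elliptic h hΔ rΔ hr

end Pool.Agent.Results.MP_305fdd_al.FreeFactors
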