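import Mathlib
import Pool.Agent.TH647.PRig.Tau

set_option autoImplicit false

namespace Pool.Agent.Results.MP_305fdd_al.GenusGrowth

open Pool.Agent.TH647.PRig

/-- Bounded genus implies rigidity for free products of cyclic groups. `cyc l` is the free product
`P(l)` of the cyclic groups `Z/m`, `m ∈ l` (`Z/0 = Z`), `cop G k` the free product of `k` copies of
`G`, and `cyc (big n)` the free product `G_n` of `n` copies of each of `Z/0, Z/1, ..., Z/n`.
(1) If `P(l)` is not profinitely rigid, then for every `k` and every finitely generated residually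
finite group `Y` there are `k + 1` pairwise non-isomorphic finitely generated residually finite
groups with the same finite quotients as the free product of `k` copies of `P(l)` and of `Y`.
(2) If some `P(l)` is not profinitely rigid, then for every `B` and all large `n` there are `B + 1`
such groups with the same finite quotients as `G_n`. -/
theorem result :
    (∀ l : List ℕ, ¬ Rigid (cyc l) → ∀ (k : ℕ) (Y : Type) [Group Y], Group.FG Y →
      Group.ResiduallyFinite Y → ∃ L : Fin (k + 1) → GrpCat.{0},
        (∀ i, Group.FG (L i) ∧ Group.ResiduallyFinite (L i) ∧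
          SameQuotients (L i) (Monoid.Coprod (cop (cyc l) k) Y)) ∧
        ∀ i j, Nonempty (L i ≃* L j) → i = j) ∧
    ((∃ l : List ℕ, ¬ Rigid (cyc l)) → ∀ B : ℕ, ∃ N : ℕ, ∀ n, N ≤ n →
      ∃ L : Fin (B + 1) → GrpCat.{0},
        (∀ i, Group.FG (L i) ∧ Group.ResiduallyFinite (L i) ∧
          SameQuotients (L i) (cyc (big n))) ∧
        ∀ i j, Nonempty (L i ≃* L j) → i = j) := by
  refine ⟨?_, ?_⟩
  · intro l hl k Y _ h1 h2
    exact growth_cyc l hl k Y h1 h2
  · rintro ⟨l, hl⟩ B
    exact ⟨B * l.length + l.sum, fun n hn => growth_big l hl B n hn⟩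

end Pool.Agent.Results.MP_305fdd_al.GenusGrowth
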