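import Pool.Agent.TH520.PR.GChars

/-!
# Groups with the finite quotients of a lattice with finitely many characters

If all homomorphisms from the finitely generated group `Γ` to the groups `PGL(2, K)`, `K` a field
of positive characteristic, have finite image, then the same holds for every finitely generated
group `Λ` all of whose finite quotients are quotients of `Γ`; moreover `Λ` has only finitely many
characters in `PGL(2, K)` for every field `K`, and if `K` is algebraically closed at most as many
as `Γ`, and exactly as many if `Λ` and `Γ` have the same finite quotients.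

The hypothesis holds if `Γ` is generated by `a₁, …, aₙ` of finite order such that for `i < j` the
product `aᵢ aⱼ` or `aᵢ aⱼ⁻¹` has finite order: cocompact triangle groups in `PSL(2, ℝ)`,
orientation preserving subgroups of the reflection groups of hyperbolic tetrahedra.
-/

namespace Pool.Agent.Results.MP_305fdd_al.ProjectiveCharacters

open Matrix

universe u

/-- every finite quotient of `Λ` is a quotient of `Γ` -/
def QuotientsLE (Λ Γ : Type) [Group Λ] [Group Γ] : Prop :=
  ∀ (Q : Type) [Group Q] [Finite Q],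
    (∃ f : Λ →* Q, Function.Surjective f) → ∃ f : Γ →* Q, Function.Surjective f

/-- every homomorphism to `PGL(2, K)`, `K` a field of positive characteristic, has finite image -/
def FiniteInPositiveChar (Γ : Type) [Group Γ] : Prop :=
  ∀ (K : Type u) [Field K] (c : ℕ), c ≠ 0 → (c : K) = 0 →
    ∀ ρ : Γ →* ProjGenLinGroup (Fin 2) K, Finite ρ.range

/-- the functions `tr² / det` on `Γ` of the homomorphisms `Γ → PGL(2, K)` -/
def projChars (Γ : Type) [Group Γ] (K : Type u) [Field K] : Set (Γ → K) :=
  {χ | ∃ ρ : Γ →* ProjGenLinGroup (Fin 2) K, ∀ (γ : Γ) (g : GL (Fin 2) K),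
    ProjGenLinGroup.mk g = ρ γ → χ γ = g.val.trace ^ 2 / g.val.det}

theorem result :
    (∀ (Γ Λ : Type) [Group Γ] [Group Λ] [Group.FG Γ] [Group.FG Λ],
      FiniteInPositiveChar.{u} Γ → QuotientsLE Λ Γ →
      FiniteInPositiveChar.{u} Λ ∧
      ∀ (K : Type u) [Field K], (projChars Λ K).Finite ∧
        ((IsAlgClosed K ∨ ∃ c : ℕ, c ≠ 0 ∧ (c : K) = 0) →
          (projChars Λ K).encard ≤ (projChars Γ K).encard ∧
          (QuotientsLE Γ Λ → (projChars Λ K).encard = (projChars Γ K).encard))) ∧
    (∀ (Γ : Type) [Group Γ] (n : ℕ) (a : Fin n → Γ), Subgroup.closure (Set.range a) = ⊤ →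
      (∀ i, IsOfFinOrder (a i)) →
      (∀ i j, i < j → IsOfFinOrder (a i * a j) ∨ IsOfFinOrder (a i * (a j)⁻¹)) →
      FiniteInPositiveChar.{u} Γ) := by
  constructor
  · intro Γ Λ _ _ _ _ hΓ hquot
    have hΛ : Pool.Agent.TH520.PR.Star.{u} Λ := Pool.Agent.TH520.PR.star_transfer hquot hΓ
    refine ⟨hΛ, fun K _ => ⟨Pool.Agent.TH520.PR.proj_chars_of_star hΛ K, fun hK => ⟨?_, ?_⟩⟩⟩
    · exact Pool.Agent.TH520.PR.count_le hquot hΛ K hK
        (Pool.Agent.TH520.PR.proj_chars_of_star hΛ K)
    · intro hquot'
      exact le_antisymm (Pool.Agent.TH520.PR.count_le hquot hΛ K hK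
        (Pool.Agent.TH520.PR.proj_chars_of_star hΛ K))
        (Pool.Agent.TH520.PR.count_le hquot' hΓ K hK
          (Pool.Agent.TH520.PR.proj_chars_of_star hΓ K))
  · intro Γ _ n a hgen hord hpair K _ c hc hcK ρ
    have hfg : Group.FG Γ := Group.fg_iff.2 ⟨Set.range a, hgen, Set.finite_range a⟩
    exact Pool.Agent.TH520.PR.proj_finite a hgen hord hpair (fun _ _ _ h => h) c hc hcK ρ

end Pool.Agent.Results.MP_305fdd_al.ProjectiveCharacters
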